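import Pool.Agent.Helper61.QL.Goals
import Pool.Agent.Helper12.QS.CD

/-!
# Project QL (MP_0ebdb3_gt), packet CDG
-/

set_option autoImplicit false

open Set NormedSpace Pool.Agent.Helper61 Pool.Agent.Helper61.QL
open Pool.Agent.Helper61.QS (V En)

namespace Pool.Agent.Helper80.QL

open Pool.Agent.Helper12.QS (exp_add_comm exp_zero' exp_mul_exp_neg exp_neg_mul_exp)

/-- `h' h⋆` is skew for a path of orthogonal operators -/
theorem skew_log {k : ℕ} (h : ℝ → En k) (X : En k) (α : ℝ) (hu : ∀ α, h α ∈ unitary (En k))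
    (hd : HasDerivAt h X α) : star (X * star (h α)) = -(X * star (h α)) := by
  have h1 : HasDerivAt (fun α => h α * star (h α)) (X * star (h α) + h α * star X) α :=
    hd.mul hd.star
  have h2 : (fun α => h α * star (h α)) = fun _ => (1 : En k) := by
    funext α
    exact (Unitary.mem_iff.1 (hu α)).2
  rw [h2] at h1
  have h3 := h1.unique (hasDerivAt_const α (1 : En k))
  rw [star_mul, star_star]
  exact eq_neg_of_add_eq_zero_right h3

theorem goalCDG : G_CDG := by
  intro k G hN hS Ψ hG L hne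
  obtain ⟨α₀, hα₀⟩ := hne
  set g : ℝ := deriv G α₀ with hg
  have dG : HasDerivAt G g α₀ := (hG.differentiable one_ne_zero α₀).hasDerivAt
  have dN : HasDerivAt hN (deriv hN α₀) α₀ := (L.smN.differentiable one_ne_zero α₀).hasDerivAt
  have dS : HasDerivAt hS (deriv hS α₀) α₀ := (L.smS.differentiable one_ne_zero α₀).hasDerivAt
  obtain ⟨N, hNd⟩ : ∃ N, N = deriv hN α₀ * star (hN α₀) := ⟨_, rfl⟩
  obtain ⟨S, hSd⟩ : ∃ S, S = deriv hS α₀ * star (hS α₀) := ⟨_, rfl⟩
  have kN : star N = -N := by rw [hNd]; exact skew_log hN _ α₀ L.uN dN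
  have kS : star S = -S := by rw [hSd]; exact skew_log hS _ α₀ L.uS dS
  have uN1 := (Unitary.mem_iff.1 (L.uN α₀)).1
  have uN2 := (Unitary.mem_iff.1 (L.uN α₀)).2
  have uS1 := (Unitary.mem_iff.1 (L.uS α₀)).1
  have uS2 := (Unitary.mem_iff.1 (L.uS α₀)).2
  obtain ⟨XN, hXN⟩ : ∃ XN : En k, XN = (1 / g) • N := ⟨_, rfl⟩
  obtain ⟨XS, hXS⟩ : ∃ XS : En k, XS = (1 / g) • S := ⟨_, rfl⟩
  have kXN : star XN = -XN := by
    rw [hXN, star_smul, kN, smul_neg]
    simp
  have kXS : star XS = -XS := by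
    rw [hXS, star_smul, kS, smul_neg]
    simp
  -- the derivative of `Ψ`
  have hder : ∀ y : ℝ, HasDerivAt Ψ (-(XS * Ψ y) + Ψ y * XN) y := by
    intro y
    have dΨ : HasDerivAt Ψ (deriv Ψ y) y := (L.smΨ.differentiable one_ne_zero y).hasDerivAt
    obtain ⟨β, hβ⟩ : ∃ β, β = y + G α₀ := ⟨_, rfl⟩
    have hy : β - G α₀ = y := by rw [hβ]; ring
    have hlin : HasDerivAt (fun α : ℝ => β - G α) (-g) α₀ := dG.const_sub β
    have dΨ' : HasDerivAt Ψ (deriv Ψ y) (β - G α₀) := by rw [hy]; exact dΨ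
    have h1 := HasDerivAt.scomp α₀ dΨ' hlin
    have h2 : HasDerivAt (fun α : ℝ => Ψ (β - G α)) ((-g) • deriv Ψ y) α₀ := h1
    have h3 : HasDerivAt (fun α : ℝ => hS α * Ψ β * star (hN α))
        (deriv hS α₀ * Ψ β * star (hN α₀) + hS α₀ * Ψ β * star (deriv hN α₀)) α₀ :=
      (dS.mul_const (Ψ β)).mul dN.star
    have h4 : (fun α : ℝ => Ψ (β - G α)) = fun α : ℝ => hS α * Ψ β * star (hN α) := by
      funext α
      rw [← L.rel α β, mul_assoc, (Unitary.mem_iff.1 (L.uN α)).2, mul_one]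
    rw [h4] at h2
    have h5 := h2.unique h3
    have h6 : Ψ β = star (hS α₀) * Ψ y * hN α₀ := by
      have h7 := L.rel α₀ β
      rw [hy] at h7
      rw [mul_assoc, h7, ← mul_assoc, uS1, one_mul]
    have h8 : deriv hS α₀ * Ψ β * star (hN α₀) + hS α₀ * Ψ β * star (deriv hN α₀) =
        S * Ψ y - Ψ y * N := by
      have e1 : deriv hS α₀ * Ψ β * star (hN α₀) = S * Ψ y := by
        rw [h6, hSd]
        calc deriv hS α₀ * (star (hS α₀) * Ψ y * hN α₀) * star (hN α₀)
            = deriv hS α₀ * star (hS α₀) * Ψ y * (hN α₀ * star (hN α₀)) := by noncomm_ring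
          _ = _ := by rw [uN2, mul_one]
      have e2 : hS α₀ * Ψ β * star (deriv hN α₀) = - (Ψ y * N) := by
        have e3 : hN α₀ * star (deriv hN α₀) = -N := by
          rw [← kN, hNd, star_mul, star_star]
        rw [h6]
        calc hS α₀ * (star (hS α₀) * Ψ y * hN α₀) * star (deriv hN α₀)
            = (hS α₀ * star (hS α₀)) * Ψ y * (hN α₀ * star (deriv hN α₀)) := by noncomm_ring
          _ = _ := by rw [uS2, e3, one_mul, mul_neg]
      rw [e1, e2, sub_eq_add_neg]
    rw [h8] at h5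
    refine dΨ.congr_deriv ?_
    have h9 : deriv Ψ y = (-(1 / g)) • ((-g) • deriv Ψ y) := by
      rw [smul_smul]
      have : -(1 / g) * -g = 1 := by field_simp
      rw [this, one_smul]
    rw [h9, h5, hXN, hXS, neg_smul, smul_sub, smul_mul_assoc, mul_smul_comm]
    abel
  -- the constant
  set Q : ℝ → En k := fun β => exp (β • XS) * Ψ β * exp (β • (-XN)) with hQ
  have hQd : ∀ β, HasDerivAt Q 0 β := by
    intro β
    have e1 : HasDerivAt (fun u : ℝ => exp (u • XS)) (exp (β • XS) * XS) β :=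
      hasDerivAt_exp_smul_const XS β
    have e2 : HasDerivAt (fun u : ℝ => exp (u • (-XN))) ((-XN) * exp (β • (-XN))) β :=
      hasDerivAt_exp_smul_const' (-XN) β
    have h := (e1.mul (hder β)).mul e2
    have h' : HasDerivAt Q ((exp (β • XS) * XS * Ψ β + exp (β • XS) * (-(XS * Ψ β) + Ψ β * XN)) *
        exp (β • (-XN)) + exp (β • XS) * Ψ β * (-XN * exp (β • (-XN)))) β := h
    refine h'.congr_deriv ?_
    noncomm_ring
  have hQc : ∀ β, Q β = 1 := by
    intro β
    have h1 := is_const_of_deriv_eq_zero (fun β => (hQd β).differentiableAt)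
      (fun β => (hQd β).deriv) β 0
    rw [h1, hQ]
    simp [L.Ψ0]
  have hΨ : ∀ β : ℝ, Ψ β = exp (-(β • XS)) * exp (β • XN) := by
    intro β
    have h1 := hQc β
    simp only [hQ, smul_neg] at h1
    calc Ψ β = (exp (-(β • XS)) * exp (β • XS)) * Ψ β * (exp (-(β • XN)) * exp (β • XN)) := by
          rw [exp_neg_mul_exp, exp_neg_mul_exp, one_mul, mul_one]
      _ = exp (-(β • XS)) * (exp (β • XS) * Ψ β * exp (-(β • XN))) * exp (β • XN) := by
          noncomm_ring
      _ = _ := by rw [h1, mul_one]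
  have hshift : ∀ γ β : ℝ, Ψ (β - γ) = exp (γ • XS) * Ψ β * exp (-(γ • XN)) := by
    intro γ β
    rw [hΨ, hΨ β]
    have e1 : -((β - γ) • XS) = γ • XS + -(β • XS) := by
      rw [sub_smul]; abel
    have e2 : (β - γ) • XN = β • XN + -(γ • XN) := by
      rw [sub_smul]; abel
    have c1 : Commute (γ • XS) (-(β • XS)) :=
      (((Commute.refl XS).smul_left γ).smul_right β).neg_right
    have c2 : Commute (β • XN) (-(γ • XN)) :=
      (((Commute.refl XN).smul_left β).smul_right γ).neg_right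
    rw [e1, e2, exp_add_comm c1, exp_add_comm c2]
    noncomm_ring
  have hrel : ∀ α β : ℝ,
      exp (G α • XS) * Ψ β * exp (-(G α • XN)) * hN α = hS α * Ψ β := by
    intro α β
    rw [← hshift, L.rel]
  have hK : ∀ α : ℝ, exp (-(G α • XN)) * hN α = exp (-(G α • XS)) * hS α := by
    intro α
    have h1 := hrel α 0
    rw [L.Ψ0, mul_one, mul_one] at h1
    rw [← h1]
    calc exp (-(G α • XN)) * hN α
        = (exp (-(G α • XS)) * exp (G α • XS)) * exp (-(G α • XN)) * hN α := by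
          rw [exp_neg_mul_exp, one_mul]
      _ = _ := by noncomm_ring
  refine ⟨XN, XS, kXN, kXS, ?_, ?_, ?_⟩
  · intro β
    rw [hΨ, neg_smul]
  · intro α
    rw [neg_smul, neg_smul]
    exact hK α
  · intro α β
    rw [neg_smul]
    have h1 := hrel α β
    calc Ψ β * (exp (-(G α • XN)) * hN α)
        = (exp (-(G α • XS)) * exp (G α • XS)) * Ψ β * exp (-(G α • XN)) * hN α := by
          rw [exp_neg_mul_exp, one_mul]; noncomm_ring
      _ = exp (-(G α • XS)) * (exp (G α • XS) * Ψ β * exp (-(G α • XN)) * hN α) := by noncomm_ring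
      _ = exp (-(G α • XS)) * hS α * Ψ β := by rw [h1]; noncomm_ring
      _ = exp (-(G α • XN)) * hN α * Ψ β := by rw [hK α]

end Pool.Agent.Helper80.QL
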