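import Pool.Agent.Helper61.QL.Goals
import Pool.Agent.Helper23.QS.CM

/-!
# Project QL (MP_0ebdb3_gt), packet CMG: the core theorem for non-constant twisting function
-/

set_option autoImplicit false

open Set NormedSpace Pool.Agent.Helper61 Pool.Agent.Helper61.QL
open Pool.Agent.Helper61.QS (V En tr UC IsPath Htp comm_star tr_mul_comm)

namespace Pool.Agent.Helper80.QL

open Pool.Agent.Helper23.QS

/-- The packet `CMG`. -/
theorem goalCMG (hCD : G_CDG) (hCE : QS.G_CE) (hCP : QS.G_CP) (hCW : QS.G_CW) (hCLB : QS.G_CLB)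
    (hPER : QS.G_PER) : G_CMG := by
  intro k m G hN hS Ψ hG hne L
  have hpi : (2 * Real.pi : ℝ) ≠ 0 := by positivity
  obtain ⟨XN, XS, hXN, hXS, hΨ, hK, hKΨ⟩ := hCD k G hN hS Ψ hG.sm L hne
  obtain ⟨Y0, hY0, hY0Ψ, hc⟩ := hCE k 1 Ψ XN XS one_ne_zero hXN hXS L.uΨ (by
    intro β
    rw [hΨ]
    simp)
  have hGper : ∀ (x : ℝ) (n : ℤ), G (x + 2 * Real.pi * n) = G x + 2 * Real.pi * (m * n) := by
    intro x n
    have h1 : Function.Periodic (fun x => G x - m * x) (2 * Real.pi) := by
      intro x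
      simp only
      rw [hG.per]
      ring
    have h2 := h1.int_mul n x
    have h3 : x + (n : ℝ) * (2 * Real.pi) = x + 2 * Real.pi * n := by ring
    rw [h3] at h2
    linear_combination h2
  obtain ⟨A, hA⟩ : ∃ A, A = XN - Y0 := ⟨_, rfl⟩
  obtain ⟨B, hB⟩ : ∃ B, B = XS - Y0 := ⟨_, rfl⟩
  rw [← hA, ← hB] at hc
  have hAs : star A = -A := by
    rw [hA, star_sub, hXN, hY0]
    abel
  have hBs : star B = -B := by
    rw [hB, star_sub, hXS, hY0]
    abel
  have hAY : A * Y0 = Y0 * A := (hc Y0 hY0Ψ).1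
  have hBY : B * Y0 = Y0 * B := (hc Y0 hY0Ψ).2
  have hXNA : XN = Y0 + A := by rw [hA]; abel
  have hXSB : XS = Y0 + B := by rw [hB]; abel
  have eN : ∀ t : ℝ, exp (t • XN) = exp (t • Y0) * exp (t • A) := ex_split hXNA hAY
  have eS : ∀ t : ℝ, exp (t • XS) = exp (t • Y0) * exp (t • B) := ex_split hXSB hBY
  have eS' : ∀ t : ℝ, exp (t • XS) = exp (t • B) * exp (t • Y0) := fun t => by
    rw [eS]
    exact (ex_comm (ex_comm hBY.symm t).symm t).symm
  have eN' : ∀ t : ℝ, exp (t • XN) = exp (t • A) * exp (t • Y0) := fun t => by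
    rw [eN]
    exact (ex_comm (ex_comm hAY.symm t).symm t).symm
  -- the path Ψ in terms of A and B
  have hΨ2 : ∀ β : ℝ, Ψ β = exp (-β • B) * exp (β • A) := by
    intro β
    rw [hΨ, eS', eN]
    calc exp (-β • B) * exp (-β • Y0) * (exp (β • Y0) * exp (β • A))
        = exp (-β • B) * (exp (-β • Y0) * exp (β • Y0)) *
          exp (β • A) := by simp only [mul_assoc]
      _ = _ := by rw [ex_neg_mul, mul_one]
  -- the commuting part
  obtain ⟨K, hKdef⟩ : ∃ K : ℝ → En k, K = fun α => exp (-(G α) • XN) * hN α := ⟨_, rfl⟩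
  obtain ⟨k', hk'⟩ : ∃ k' : ℝ → En k, k' = fun α => exp ((G α) • Y0) * K α := ⟨_, rfl⟩
  have hKu : ∀ α, K α ∈ unitary (En k) := fun α => by
    rw [hKdef]
    exact Submonoid.mul_mem _ (ex_unitary hXN _) (L.uN α)
  have hk'u : ∀ α, k' α ∈ unitary (En k) := fun α => by
    rw [hk']
    exact Submonoid.mul_mem _ (ex_unitary hY0 _) (hKu α)
  have hKc : ∀ α β, Ψ β * K α = K α * Ψ β := fun α β => by
    rw [hKdef]
    exact hKΨ α β
  have hk'c : ∀ α β, Ψ β * k' α = k' α * Ψ β := fun α β => by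
    rw [hk']
    show Ψ β * (exp ((G α) • Y0) * K α) = exp ((G α) • Y0) * K α * Ψ β
    rw [← mul_assoc, ex_comm (hY0Ψ β).symm (G α), mul_assoc, hKc, mul_assoc]
  have hk'N : ∀ α, hN α = exp ((G α) • A) * k' α := fun α => by
    rw [hk', hKdef]
    show hN α = exp ((G α) • A) * (exp ((G α) • Y0) * (exp (-(G α) • XN) * hN α))
    rw [← mul_assoc, ← eN', ← mul_assoc, ex_mul_neg, one_mul]
  have hk'S : ∀ α, hS α = exp ((G α) • B) * k' α := fun α => by
    rw [hk', hKdef]
    show hS α = exp ((G α) • B) * (exp ((G α) • Y0) * (exp (-(G α) • XN) * hN α))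
    rw [hK, ← mul_assoc, ← eS', ← mul_assoc, ex_mul_neg, one_mul]
  have hk'cont : Continuous k' := by
    rw [hk', hKdef]
    have c1 : Continuous fun α : ℝ => exp ((G α) • Y0) := (ex_cont Y0).comp hG.sm.continuous
    have c2 : Continuous fun α : ℝ => exp (-(G α) • XN) :=
      (ex_cont XN).comp hG.sm.continuous.neg
    exact c1.mul (c2.mul L.smN.continuous)
  have hk'0 : k' 0 = 1 := by
    have h1 := hk'N 0
    rw [L.N0, hG.zero, ex_zero, one_mul] at h1
    exact h1.symm
  -- the monodromy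
  obtain ⟨u, hu⟩ : ∃ u, u = exp ((2 * Real.pi) • A) := ⟨_, rfl⟩
  have huB : u = exp ((2 * Real.pi) • B) := by
    have h1 : Ψ (2 * Real.pi) = 1 := by
      have h2 := L.pΨ 0
      rw [zero_add, L.Ψ0] at h2
      exact h2
    rw [hΨ2] at h1
    calc u = (exp ((2 * Real.pi) • B) * exp (-(2 * Real.pi) • B)) * u := by
          rw [ex_mul_neg, one_mul]
      _ = exp ((2 * Real.pi) • B) * (exp (-(2 * Real.pi) • B) *
          exp ((2 * Real.pi) • A)) := by rw [hu, mul_assoc]
      _ = _ := by rw [h1, mul_one]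
  have huu : u ∈ unitary (En k) := by
    rw [hu]
    exact ex_unitary hAs _
  -- the path p
  obtain ⟨p, hp⟩ : ∃ p : ℝ → En k, p = fun t => k' (2 * Real.pi * t) := ⟨_, rfl⟩
  have hpUC : ∀ t, p t ∈ UC (range Ψ) := fun t => by
    rw [hp]
    refine ⟨hk'u _, ?_⟩
    rintro _ ⟨β, rfl⟩
    exact hk'c _ β
  have hpcont : Continuous p := by
    rw [hp]
    exact hk'cont.comp (by fun_prop)
  have hp0 : p 0 = 1 := by
    rw [hp]
    show k' (2 * Real.pi * 0) = 1
    rw [mul_zero, hk'0]
  obtain ⟨a, q, ha, ⟨H, Hc, Hm, Hst, Hend⟩, hq⟩ :=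
    hCP k (range Ψ) p ⟨hpcont.continuousOn, fun t _ => hpUC t⟩ hp0
  have haΨ : ∀ β, a * Ψ β = Ψ β * a := fun β => (ha.2 _ ⟨β, rfl⟩).symm
  have haA : A * a = a * A := (hc a haΨ).1
  have haB : B * a = a * B := (hc a haΨ).2
  have m0 : (0 : ℝ) ∈ Icc (0 : ℝ) 1 := ⟨le_rfl, zero_le_one⟩
  have m1 : (1 : ℝ) ∈ Icc (0 : ℝ) 1 := ⟨zero_le_one, le_rfl⟩
  have mf : ∀ x : ℝ, Int.fract x ∈ Icc (0 : ℝ) 1 := fun x =>
    ⟨Int.fract_nonneg x, (Int.fract_lt_one x).le⟩
  -- the homotopy κ
  obtain ⟨GG, hGG⟩ : ∃ GG : ℝ → ℝ → En k, GG = fun s t => star (p t) * H s t := ⟨_, rfl⟩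
  have hG0 : ∀ s ∈ Icc (0 : ℝ) 1, GG s 0 = 1 := fun s hs => by
    rw [hGG]
    show star (p 0) * H s 0 = 1
    rw [(Hend s hs).1]
    exact UC.star_mul (hpUC 0)
  have hG1 : ∀ s ∈ Icc (0 : ℝ) 1, GG s 1 = 1 := fun s hs => by
    rw [hGG]
    show star (p 1) * H s 1 = 1
    rw [(Hend s hs).2]
    exact UC.star_mul (hpUC 1)
  have hGUC : ∀ s ∈ Icc (0 : ℝ) 1, ∀ t ∈ Icc (0 : ℝ) 1, GG s t ∈ UC (range Ψ) :=
    fun s hs t ht => by
      rw [hGG]
      exact UC.mul_mem (UC.star_mem (hpUC t)) (Hm s hs t ht)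
  have hGc : ContinuousOn (fun z : ℝ × ℝ => GG z.1 z.2) (Icc (0 : ℝ) 1 ×ˢ Icc (0 : ℝ) 1) := by
    rw [hGG]
    have c1 : Continuous fun z : ℝ × ℝ => star (p z.2) :=
      (continuous_star.comp (hpcont.comp continuous_snd))
    exact c1.continuousOn.mul Hc
  obtain ⟨κ, hκ⟩ : ∃ κ : ℝ → ℝ → En k,
    κ = fun s α => GG s (Int.fract (α / (2 * Real.pi))) := ⟨_, rfl⟩
  have hκc : ContinuousOn (fun z : ℝ × ℝ => κ z.1 z.2) (Icc (0 : ℝ) 1 ×ˢ univ) := by
    rw [hκ]
    exact hPER k GG hGc fun s hs => by rw [hG0 s hs, hG1 s hs]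
  have hκUC : ∀ s ∈ Icc (0 : ℝ) 1, ∀ α, κ s α ∈ UC (range Ψ) := fun s hs α => by
    rw [hκ]
    exact hGUC s hs _ (mf _)
  have hfract : ∀ x : ℝ, Int.fract ((x + 2 * Real.pi) / (2 * Real.pi)) =
      Int.fract (x / (2 * Real.pi)) := fun x => by
    rw [add_div, div_self hpi, Int.fract_add_one]
  -- reduction to one period
  have hper : ∀ {f : ℝ → En k}, (∀ x, f (x + 2 * Real.pi) = f x) → ∀ (x : ℝ) (n : ℤ),
      f (x + 2 * Real.pi * n) = f x := by
    intro f hf x n
    have h1 : Function.Periodic f (2 * Real.pi) := hf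
    have h2 := h1.int_mul n x
    rw [mul_comm]
    exact h2
  have hdec : ∀ α : ℝ, α = 2 * Real.pi * Int.fract (α / (2 * Real.pi)) +
      2 * Real.pi * (⌊α / (2 * Real.pi)⌋ : ℤ) := by
    intro α
    rw [← mul_add, add_comm, Int.floor_add_fract]
    field_simp
  have hNκ : ∀ α : ℝ, hN α * κ 1 α =
      exp (G (2 * Real.pi * Int.fract (α / (2 * Real.pi))) • A) *
        q (Int.fract (α / (2 * Real.pi))) := by
    intro α
    set f := Int.fract (α / (2 * Real.pi)) with hf
    have h1 : hN α = hN (2 * Real.pi * f) := by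
      conv_lhs => rw [hdec α]
      exact hper L.pN _ _
    have h2 : κ 1 α = star (p f) * q f := by
      rw [hκ, hGG]
      show star (p f) * H 1 f = _
      rw [(Hst f (mf _)).2]
    have h3 : k' (2 * Real.pi * f) = p f := by rw [hp]
    rw [h1, hk'N, h2, h3]
    calc exp (G (2 * Real.pi * f) • A) * p f * (star (p f) * q f)
        = exp (G (2 * Real.pi * f) • A) * (p f * star (p f)) * q f := by simp only [mul_assoc]
      _ = _ := by rw [UC.mul_star (hpUC f), mul_one]
  have hSκ : ∀ α : ℝ, hS α * κ 1 α =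
      exp (G (2 * Real.pi * Int.fract (α / (2 * Real.pi))) • B) *
        q (Int.fract (α / (2 * Real.pi))) := by
    intro α
    set f := Int.fract (α / (2 * Real.pi)) with hf
    have h1 : hS α = hS (2 * Real.pi * f) := by
      conv_lhs => rw [hdec α]
      exact hper L.pS _ _
    have h2 : κ 1 α = star (p f) * q f := by
      rw [hκ, hGG]
      show star (p f) * H 1 f = _
      rw [(Hst f (mf _)).2]
    have h3 : k' (2 * Real.pi * f) = p f := by rw [hp]
    rw [h1, hk'S, h2, h3]
    calc exp (G (2 * Real.pi * f) • B) * p f * (star (p f) * q f)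
        = exp (G (2 * Real.pi * f) • B) * (p f * star (p f)) * q f := by simp only [mul_assoc]
      _ = _ := by rw [UC.mul_star (hpUC f), mul_one]
  -- the path w
  have huA : u * A = A * u := by
    rw [hu]
    exact (ex_comm (x := A) (A := A) rfl _).symm
  have huB' : u * B = B * u := by
    rw [huB]
    exact (ex_comm (x := B) (A := B) rfl _).symm
  obtain ⟨w, wc, w0, wm, wAB⟩ := hCW k {u, a} A B hAs hBs
    (by
      rintro s (rfl | rfl)
      · exact huA
      · exact haA.symm)
    (by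
      rintro s (rfl | rfl)
      · exact huB'
      · exact haB.symm)
  have wu : ∀ s, u * w s = w s * u := fun s => (wm s).2 u (Or.inl rfl)
  have wa : ∀ s, a * w s = w s * a := fun s => (wm s).2 a (Or.inr rfl)
  have wU : ∀ s, w s ∈ unitary (En k) := fun s => (wm s).1
  have wsu : ∀ s, star u * star (w s) = star (w s) * star u := fun s => by
    rw [← star_mul, ← star_mul, wu]
  have was : ∀ s, a * star (w s) = star (w s) * a := fun s => comm_star (wU s) (wa s)
  -- the homotopy Φ
  obtain ⟨Φ, hΦ⟩ : ∃ Φ : ℝ → ℝ → En k,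
    Φ = fun s β => exp (-β • B) * star (w s) * exp (β • A) := ⟨_, rfl⟩
  have hΦc : Continuous (fun z : ℝ × ℝ => Φ z.1 z.2) := by
    rw [hΦ]
    have c1 : Continuous fun z : ℝ × ℝ => exp (-z.2 • B) :=
      (ex_cont B).comp (by fun_prop)
    have c2 : Continuous fun z : ℝ × ℝ => exp (z.2 • A) :=
      (ex_cont A).comp (by fun_prop)
    have c3 : Continuous fun z : ℝ × ℝ => star (w z.1) :=
      continuous_star.comp (wc.comp continuous_fst)
    exact (c1.mul c3).mul c2
  have hΦu : ∀ s β, Φ s β ∈ unitary (En k) := fun s β => by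
    rw [hΦ]
    exact Submonoid.mul_mem _ (Submonoid.mul_mem _ (ex_unitary hBs _) (Unitary.star_mem (wU s)))
      (ex_unitary hAs _)
  have hΦp : ∀ s x, Φ s (x + 2 * Real.pi) = Φ s x := by
    intro s x
    rw [hΦ]
    show exp (-(x + 2 * Real.pi) • B) * star (w s) * exp ((x + 2 * Real.pi) • A) =
      exp (-x • B) * star (w s) * exp (x • A)
    have h1 : exp (-(x + 2 * Real.pi) • B) = exp (-x • B) * star u := by
      rw [huB, ex_star hBs, ← ex_add]
      congr 2
      ring
    have h2 : exp ((x + 2 * Real.pi) • A) = u * exp (x • A) := by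
      rw [hu, ← ex_add]
      congr 2
      ring
    rw [h1, h2]
    exact per_core (Unitary.mem_iff.1 huu).1 (wsu s)
  -- commutation of q with A, B, w
  have hqA : ∀ f ∈ Icc (0 : ℝ) 1, A * q f = q f * A := fun f hf => hq f hf A haA
  have hqB : ∀ f ∈ Icc (0 : ℝ) 1, B * q f = q f * B := fun f hf => hq f hf B haB
  have hqw : ∀ f ∈ Icc (0 : ℝ) 1, ∀ s, star (w s) * q f = q f * star (w s) :=
    fun f hf s => hq f hf _ (was s).symm
  have hrel : ∀ s α β, Φ s (β - G α) * (hN α * κ 1 α) = (hS α * κ 1 α) * Φ s β := by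
    intro s α β
    rw [hNκ, hSκ]
    set f := Int.fract (α / (2 * Real.pi)) with hf
    have hfm : f ∈ Icc (0 : ℝ) 1 := mf _
    have h1 : Φ s (β - G α) = Φ s (β - G (2 * Real.pi * f)) := by
      have h2 : β - G α = β - G (2 * Real.pi * f) +
          2 * Real.pi * ((-(m * ⌊α / (2 * Real.pi)⌋) : ℤ) : ℝ) := by
        conv_lhs => rw [hdec α, hGper]
        push_cast
        ring
      rw [h2]
      exact hper (hΦp s) _ _
    rw [h1, hΦ]
    show exp (-(β - G (2 * Real.pi * f)) • B) * star (w s) *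
      exp ((β - G (2 * Real.pi * f)) • A) * (exp (G (2 * Real.pi * f) • A) * q f) =
      exp (G (2 * Real.pi * f) • B) * q f * (exp (-β • B) * star (w s) * exp (β • A))
    have h3 : exp (-(β - G (2 * Real.pi * f)) • B) =
        exp (G (2 * Real.pi * f) • B) * exp (-β • B) := by
      rw [← ex_add]
      congr 2
      field_simp
      ring
    have h4 : exp ((β - G (2 * Real.pi * f)) • A) =
        exp (β • A) * exp (-(G (2 * Real.pi * f)) • A) := by
      rw [← ex_add]
      congr 2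
    rw [h3, h4]
    exact rel_core (ex_neg_mul A _) (ex_comm (hqB f hfm).symm _) (hqw f hfm s).symm
      (ex_comm (hqA f hfm).symm _)
  -- the splitting
  obtain ⟨W, hW⟩ : ∃ W, W = w 1 := ⟨_, rfl⟩
  have hWu : W ∈ unitary (En k) := by
    rw [hW]
    exact wU 1
  have hVW : star W * W = 1 := (Unitary.mem_iff.1 hWu).1
  have hWV : W * star W = 1 := (Unitary.mem_iff.1 hWu).2
  obtain ⟨A', hA'⟩ : ∃ A', A' = W * B * star W := ⟨_, rfl⟩
  have hA's : star A' = -A' := by
    rw [hA', star_mul, star_mul, star_star, hBs]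
    simp only [neg_mul, mul_neg, mul_assoc]
  have hA'A : A' * A = A * A' := by
    rw [hA', hW]
    exact wAB
  have haW : a * W = W * a := by
    rw [hW]
    exact wa 1
  have haV : a * star W = star W * a := by
    rw [hW]
    exact was 1
  have haA' : A' * a = a * A' := by
    rw [hA']
    calc W * B * star W * a = W * B * (star W * a) := by simp only [mul_assoc]
      _ = W * (B * a) * star W := by rw [← haV]; simp only [mul_assoc]
      _ = (W * a) * B * star W := by rw [haB]; simp only [mul_assoc]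
      _ = _ := by rw [← haW]; simp only [mul_assoc]
  have haU : a ∈ unitary (En k) := ha.1
  have haas : a * star a = star a * a := comm_star haU rfl
  obtain ⟨N, π, hπ1, hπ2, hπ3, hπ4⟩ := hCLB k {A, A', a} (by
    have sk : ∀ x y : En k, star y = -y → x * y = y * x →
        x * y = y * x ∧ x * star y = star y * x := fun x y h1 h2 =>
      ⟨h2, by rw [h1, mul_neg, neg_mul, h2]⟩
    rintro x (rfl | rfl | rfl) y (rfl | rfl | rfl)
    · exact sk _ _ hAs rfl
    · exact sk _ _ hA's hA'A.symm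
    · exact ⟨haA, comm_star haU haA⟩
    · exact sk _ _ hAs hA'A
    · exact sk _ _ hA's rfl
    · exact ⟨haA', comm_star haU haA'⟩
    · exact sk _ _ hAs haA.symm
    · exact sk _ _ hA's haA'.symm
    · exact ⟨rfl, haas⟩)
  have πA : ∀ j, A * π j = π j * A := fun j => (hπ1 j).2.2 A (Or.inl rfl)
  have πA' : ∀ j, A' * π j = π j * A' := fun j => (hπ1 j).2.2 A' (Or.inr (Or.inl rfl))
  have πa : ∀ j, a * π j = π j * a := fun j => (hπ1 j).2.2 a (Or.inr (Or.inr rfl))
  have hAe : ∀ t : ℝ, W * exp (t • B) * star W = exp (t • A') := fun t => by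
    rw [hA']
    exact (ex_conj hVW hWV t).symm
  have hlast : ∀ j β, star (Φ 1 β) * (star W * π j * W) * Φ 1 β = π j := by
    intro j β
    have e1 : Φ 1 β = exp (-β • B) * star W * exp (β • A) := by
      rw [hΦ, hW]
    have e2 : star (Φ 1 β) = exp (-β • A) * W * exp (β • B) := by
      rw [e1, star_mul, star_mul, star_star, ex_star hAs, ex_star hBs, neg_neg, mul_assoc]
    rw [e2, e1]
    refine last_core hVW ?_ (ex_mul_neg B _) hWV ?_ (ex_neg_mul A _)
    · rw [hAe]
      exact (ex_comm (πA' j).symm _).symm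
    · exact (ex_comm (πA j).symm _).symm
  refine ⟨κ, Φ, hκc, hΦc.continuousOn, ?_, ?_, ?_, ?_, ?_, ?_, N,
    fun j => star W * π j * W, ?_, ?_, ?_, ?_⟩
  · intro s hs x
    refine ⟨(hκUC s hs x).1, hΦu s x, ?_, hΦp s x⟩
    rw [hκ]
    show GG s (Int.fract ((x + 2 * Real.pi) / (2 * Real.pi))) = GG s (Int.fract (x / (2 * Real.pi)))
    rw [hfract]
  · intro α
    rw [hκ, hGG]
    show star (p _) * H 0 _ = 1
    rw [(Hst _ (mf _)).1]
    exact UC.star_mul (hpUC _)
  · intro s hs
    rw [hκ]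
    show GG s (Int.fract (0 / (2 * Real.pi))) = 1
    rw [zero_div, Int.fract_zero]
    exact hG0 s hs
  · intro β
    rw [hΨ2, hΦ]
    show exp (-β • B) * star (w 0) * exp (β • A) = _
    rw [w0, star_one, mul_one]
  · intro s hs α β
    exact (hκUC s hs α).2 _ ⟨β, rfl⟩
  · intro s _ α β
    exact hrel s α β
  · intro j
    obtain ⟨h1, h2, -⟩ := hπ1 j
    refine ⟨?_, ?_, ?_, ?_⟩
    · calc star W * π j * W * (star W * π j * W) = star W * π j * (W * star W) * π j * W := by
            simp only [mul_assoc]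
        _ = star W * (π j * π j) * W := by rw [hWV, mul_one]; simp only [mul_assoc]
        _ = _ := by rw [h1]
    · rw [star_mul, star_mul, star_star, h2, ← mul_assoc]
    · intro α
      rw [hSκ]
      have hf := mf (α / (2 * Real.pi))
      have h3 : star W * q (Int.fract (α / (2 * Real.pi))) =
          q (Int.fract (α / (2 * Real.pi))) * star W := by
        rw [hW]
        exact hqw _ hf 1
      have h4 : π j * q (Int.fract (α / (2 * Real.pi))) =
          q (Int.fract (α / (2 * Real.pi))) * π j := hq _ hf _ (πa j).symm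
      refine comm_of_conj hVW ?_
      have h5 : W * (exp (G (2 * Real.pi * Int.fract (α / (2 * Real.pi))) • B) *
          q (Int.fract (α / (2 * Real.pi)))) * star W =
          exp (G (2 * Real.pi * Int.fract (α / (2 * Real.pi))) • A') *
            q (Int.fract (α / (2 * Real.pi))) := by
        rw [← hAe]
        calc _ = W * exp (G (2 * Real.pi * Int.fract (α / (2 * Real.pi))) • B) *
              (q (Int.fract (α / (2 * Real.pi))) * star W) := by simp only [mul_assoc]
          _ = _ := by rw [← h3]; simp only [mul_assoc]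
      rw [h5, mul_assoc, ← h4, ← mul_assoc, ← mul_assoc, ex_comm (πA' j).symm]
    · intro β
      rw [hlast, hlast]
  · intro i j hij
    show star W * π i * W * (star W * π j * W) = 0
    calc star W * π i * W * (star W * π j * W) = star W * π i * (W * star W) * π j * W := by
          simp only [mul_assoc]
      _ = star W * (π i * π j) * W := by rw [hWV, mul_one]; simp only [mul_assoc]
      _ = 0 := by rw [hπ2 i j hij, mul_zero, zero_mul]
  · rw [← Finset.sum_mul, ← Finset.mul_sum, hπ3, mul_one, hVW]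
  · intro j
    have h1 : tr (star W * π j * W) = tr (π j) := by
      rw [mul_assoc, tr_mul_comm, mul_assoc, hWV, mul_one]
    show tr (star W * π j * W) = 2 ∨ (tr (star W * π j * W) = 1 ∧ j.val = 0)
    rw [h1]
    exact hπ4 j

end Pool.Agent.Helper80.QL
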