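import Pool.Agent.Helper61.QL.Goals

/-!
# Project QL (MP_0ebdb3_gt), packet CRG: the core theorem
-/

set_option autoImplicit false

open Set NormedSpace Pool.Agent.Helper61 Pool.Agent.Helper61.QL
open Pool.Agent.Helper61.QS (V En)

namespace Pool.Agent.Helper80.QL

theorem goalCRG (hCM : G_CMG) (hC0 : QS.G_C0) : G_CRG := by
  intro k m G hN hS Ψ hG L
  by_cases hne : ∃ α₀, deriv G α₀ ≠ 0
  · exact hCM k m G hN hS Ψ hG hne L
  · have hd : ∀ α, deriv G α = 0 := by
      intro α
      by_contra h
      exact hne ⟨α, h⟩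
    have hG0 : ∀ α, G α = 0 := by
      intro α
      rw [is_const_of_deriv_eq_zero (hG.sm.differentiable one_ne_zero) hd α 0, hG.zero]
    have hm : ((0 : ℤ) : ℝ) = 0 := by simp
    have L0 : QS.Loops k 0 hN hS Ψ := by
      refine
        { uN := L.uN
          uS := L.uS
          uΨ := L.uΨ
          cN := L.smN.continuous
          cS := L.smS.continuous
          cΨ := L.smΨ.continuous
          pN := L.pN
          pS := L.pS
          pΨ := L.pΨ
          N0 := L.N0
          S0 := L.S0
          Ψ0 := L.Ψ0
          dN := L.smN.differentiable one_ne_zero 0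
          dS := L.smS.differentiable one_ne_zero 0
          rel := ?_ }
      intro α β
      have h := L.rel α β
      rw [hG0] at h
      rw [hm, zero_mul]
      exact h
    obtain ⟨κ, Φ, h1, h2, h3, h4, h5, h6, h7, h8, h9⟩ := hC0 k hN hS Ψ L0
    refine ⟨κ, Φ, h1, h2, h3, h4, h5, h6, h7, ?_, h9⟩
    intro s hs α β
    have h := h8 s hs α β
    rw [hm, zero_mul] at h
    rw [hG0]
    exact h

end Pool.Agent.Helper80.QL
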