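import Pool.Agent.Helper80.QL.LPG
import Pool.Agent.Helper78.QS.EJ

/-!
# Project QL (MP_0ebdb3_gt), packet EJG: the splitting on the polar box
-/

set_option autoImplicit false

open Set ComplexConjugate

namespace Pool.Agent.Helper80.QL

open Pool.Agent.Helper61.QS Pool.Agent.Helper61.QL
open Pool.Agent.Helper78.QS (compr_unitary cj cj_mul star_cj cj_one cj_zero cj_sum cj_comp tr_cj
  continuous_cj LL ww box_s box_σ conj_mul conj_mul' ww_mul star_ww ww_one ww_zero ww_sum tr_ww
  key_r1 key_t1)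

variable {n k : ℕ}

section main

variable {G : ℝ → ℝ} {ε R T : R4 → En n} {J : V k →L[ℝ] V n}

theorem uM (h : HolL G ε R T) (x : R4) :
    T x * R (x.1, 0, x.2.2.1, x.2.2.2) ∈ unitary (En n) :=
  Submonoid.mul_mem _ (h.uT _) (h.uR _)

theorem isoL (h : HolL G ε R T) (hJ : IsIso (ε (0, 0, 0, 0)) J) (x : R4) :
    IsIso (ε x) (LL R T J x) := by
  have h1 : star (T x * R (x.1, 0, x.2.2.1, x.2.2.2)) * (T x * R (x.1, 0, x.2.2.1, x.2.2.2)) = 1 :=
    (Unitary.mem_iff.1 (uM h x)).1
  have h2 : (T x * R (x.1, 0, x.2.2.1, x.2.2.2)) * star (T x * R (x.1, 0, x.2.2.1, x.2.2.2)) = 1 :=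
    (Unitary.mem_iff.1 (uM h x)).2
  have hc : ε x * (T x * R (x.1, 0, x.2.2.1, x.2.2.2)) =
      (T x * R (x.1, 0, x.2.2.1, x.2.2.2)) * ε (0, 0, 0, 0) := by
    obtain ⟨r, θ, α, β⟩ := x
    have a1 := h.iT r θ α β
    have a2 := h.iR r 0 α β
    have a3 : ε (0, 0, α, β) = ε (0, 0, 0, 0) := by
      rw [(h.r0 0 α β).1, (h.t0 0 0 β).1]
    simp only
    rw [← mul_assoc, a1, mul_assoc, a2, a3, mul_assoc]
  constructor
  · rw [LL, ContinuousLinearMap.adjoint_comp]
    have h3 : ((ContinuousLinearMap.adjoint J).comp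
        (ContinuousLinearMap.adjoint (T x * R (x.1, 0, x.2.2.1, x.2.2.2)))).comp
          ((T x * R (x.1, 0, x.2.2.1, x.2.2.2)).comp J) =
        (ContinuousLinearMap.adjoint J).comp
          ((star (T x * R (x.1, 0, x.2.2.1, x.2.2.2)) *
            (T x * R (x.1, 0, x.2.2.1, x.2.2.2))).comp J) := rfl
    rw [h3, h1]
    exact hJ.left
  · rw [LL, ContinuousLinearMap.adjoint_comp]
    have h3 : ((T x * R (x.1, 0, x.2.2.1, x.2.2.2)).comp J).comp
        ((ContinuousLinearMap.adjoint J).comp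
          (ContinuousLinearMap.adjoint (T x * R (x.1, 0, x.2.2.1, x.2.2.2)))) =
        (T x * R (x.1, 0, x.2.2.1, x.2.2.2)) * (J.comp (ContinuousLinearMap.adjoint J)) *
          star (T x * R (x.1, 0, x.2.2.1, x.2.2.2)) := rfl
    rw [h3, hJ.right, ← hc, mul_assoc, h2, mul_one]

theorem continuous_LL (h : HolL G ε R T) (J : V k →L[ℝ] V n) : Continuous (LL R T J) := by
  have h1 := h.cR
  have h2 := h.cT
  have h3 : Continuous (fun x : R4 => R (x.1, 0, x.2.2.1, x.2.2.2)) := h1.comp (by fun_prop)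
  exact (h2.mul h3).clm_comp continuous_const

theorem LL_r1 (h : HolL G ε R T) (hJ : IsIso (ε (0, 0, 0, 0)) J) (θ α β : ℝ) :
    LL R T J (Real.pi / 2, θ, α, β) =
      ((T (Real.pi / 2, θ, 0, β - G α) * R (Real.pi / 2, 0, 0, 0)).comp J).comp (lN J R α) := by
  have h1 : T (Real.pi / 2, θ, α, β) = T (Real.pi / 2, θ, 0, β - G α) := (h.r1 θ α β).2
  have h2 : R (Real.pi / 2, 0, α, β) = R (Real.pi / 2, 0, α, 0) := (h.t0 (Real.pi / 2) α β).2
  simp only [LL]
  rw [h1, h2]
  calc (T (Real.pi / 2, θ, 0, β - G α) * R (Real.pi / 2, 0, α, 0)).comp J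
      = (T (Real.pi / 2, θ, 0, β - G α) * (R (Real.pi / 2, 0, 0, 0) *
          (star (R (Real.pi / 2, 0, 0, 0)) * R (Real.pi / 2, 0, α, 0)))).comp J := by
        rw [mul_star_mul (h.uR _)]
    _ = (T (Real.pi / 2, θ, 0, β - G α) * R (Real.pi / 2, 0, 0, 0)).comp
          ((star (R (Real.pi / 2, 0, 0, 0)) * R (Real.pi / 2, 0, α, 0)).comp J) := rfl
    _ = _ := by rw [factA h hJ]; rfl

theorem LL_r1' (h : HolL G ε R T) (θ β : ℝ) :
    LL R T J (Real.pi / 2, θ, 0, β) =
      (T (Real.pi / 2, θ, 0, β) * R (Real.pi / 2, 0, 0, 0)).comp J := by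
  simp only [LL]
  rw [(h.t0 (Real.pi / 2) 0 β).2]

theorem LL_t1 (h : HolL G ε R T) (hJ : IsIso (ε (0, 0, 0, 0)) J) (r α β : ℝ) :
    LL R T J (r, Real.pi, α, β) =
      ((R (r, Real.pi, α, 0)).comp ((T (0, Real.pi, 0, 0)).comp J)).comp (lΨ J T β) := by
  have h1 : R (r, Real.pi, α, β) = R (r, Real.pi, α, 0) := (h.t1 r α β).2
  have h2 : T (0, Real.pi, α, β) = T (0, Real.pi, 0, β) := (h.r0 Real.pi α β).2
  have c := comp_congr hJ (h.comm r Real.pi α β)
  rw [h1, h2] at c
  simp only [LL]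
  rw [c]
  calc (R (r, Real.pi, α, 0) * T (0, Real.pi, 0, β)).comp J
      = (R (r, Real.pi, α, 0)).comp ((T (0, Real.pi, 0, β)).comp J) := rfl
    _ = _ := by rw [factΨ h hJ]; rfl

end main

theorem goalEJG : G_EJG := by
  intro G n k ε R T J hG h hJ hcore
  obtain ⟨κ, Φ, cκ, cΦ, hu, κ0, κx0, Φ0, hcomm, hrel, N, ϖ, hϖ, hϖ0, hϖ1, hϖt⟩ := hcore
  have uκ : ∀ s ∈ Icc (0 : ℝ) 1, ∀ x, star (κ s x) * κ s x = 1 ∧ κ s x * star (κ s x) = 1 :=
    fun s hs x => Unitary.mem_iff.1 (hu s hs x).1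
  have uΦ : ∀ s ∈ Icc (0 : ℝ) 1, ∀ x, star (Φ s x) * Φ s x = 1 ∧ Φ s x * star (Φ s x) = 1 :=
    fun s hs x => Unitary.mem_iff.1 (hu s hs x).2.1
  have hL := fun x => (isoL h hJ x).left
  refine ⟨N, fun j x => cj (LL R T J x) (ww κ Φ (ϖ j) x), ?_, ?_, ?_, ?_⟩
  · intro j
    constructor
    · -- continuity
      have hw : ContinuousOn (ww κ Φ (ϖ j)) Box := by
        have h1 : ContinuousOn (fun x : R4 => κ (2 * x.1 / Real.pi) x.2.2.1) Box := by
          have : ContinuousOn ((fun z : ℝ × ℝ => κ z.1 z.2) ∘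
              (fun x : R4 => (2 * x.1 / Real.pi, x.2.2.1))) Box :=
            cκ.comp (by fun_prop) (fun x hx => ⟨box_s hx, mem_univ _⟩)
          exact this
        have h2 : ContinuousOn (fun x : R4 => Φ (1 - x.2.1 / Real.pi) x.2.2.2) Box := by
          have : ContinuousOn ((fun z : ℝ × ℝ => Φ z.1 z.2) ∘
              (fun x : R4 => (1 - x.2.1 / Real.pi, x.2.2.2))) Box :=
            cΦ.comp (by fun_prop) (fun x hx => ⟨box_σ hx, mem_univ _⟩)
          exact this
        unfold ww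
        exact (h1.mul ((h2.star.mul continuousOn_const).mul h2)).mul h1.star
      have h3 : ContinuousOn (fun x : R4 => (LL R T J x, ww κ Φ (ϖ j) x)) Box :=
        (continuous_LL h J).continuousOn.prodMk hw
      exact continuous_cj.comp_continuousOn h3
    · refine ⟨?_, ?_, ?_, ?_, ?_, ?_⟩
      · intro r θ α β hx
        have hs := box_s hx
        have hp := (hu _ hs α).2.2.1
        have e1 : LL R T J (r, θ, α + 2 * Real.pi, β) = LL R T J (r, θ, α, β) := by
          simp only [LL]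
          rw [(h.perα r θ α β).2.2, (h.perα r 0 α β).2.1]
        have e2 : ww κ Φ (ϖ j) (r, θ, α + 2 * Real.pi, β) = ww κ Φ (ϖ j) (r, θ, α, β) := by
          simp only [ww]
          simp only at hp
          rw [hp]
        simp only [e1, e2]
      · intro r θ α β hx
        have hs := box_σ hx
        have hp := (hu _ hs β).2.2.2
        have e1 : LL R T J (r, θ, α, β + 2 * Real.pi) = LL R T J (r, θ, α, β) := by
          simp only [LL]
          rw [(h.perβ r θ α β).2.2, (h.perβ r 0 α β).2.1]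
        have e2 : ww κ Φ (ϖ j) (r, θ, α, β + 2 * Real.pi) = ww κ Φ (ϖ j) (r, θ, α, β) := by
          simp only [ww]
          simp only at hp
          rw [hp]
        simp only [e1, e2]
      · intro θ α β h0 h1
        have e1 : LL R T J (0, θ, α, β) = LL R T J (0, θ, 0, β) := by
          simp only [LL]
          rw [h.R0, h.R0, (h.r0 θ α β).2]
        have e2 : ww κ Φ (ϖ j) (0, θ, α, β) = ww κ Φ (ϖ j) (0, θ, 0, β) := by
          simp only [ww, mul_zero, zero_div, κ0]
        simp only [e1, e2]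
      · intro θ α β h0 h1
        have hpi := Real.pi_pos
        have hσ : 1 - θ / Real.pi ∈ Icc (0 : ℝ) 1 := by
          constructor
          · rw [sub_nonneg, div_le_one hpi]; exact h1
          · have : 0 ≤ θ / Real.pi := by positivity
            linarith
        have h11 : (1 : ℝ) ∈ Icc (0 : ℝ) 1 := ⟨zero_le_one, le_refl _⟩
        have hs1 : 2 * (Real.pi / 2) / Real.pi = 1 := by field_simp
        have hr := hrel _ hσ α β
        obtain ⟨hp1, hp2, hp3, hp4⟩ := hϖ j
        have hz : (lS J R T α * κ 1 α) * star (lS J R T α * κ 1 α) = 1 := by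
          have hS : lS J R T α * star (lS J R T α) = 1 :=
            (Unitary.mem_iff.1 (compr_unitary (isoS h hJ) (isoS h hJ) (interS h α)
              (Submonoid.mul_mem _ (Unitary.star_mem (h.uR _)) (h.uR _)))).2
          rw [star_mul, mul_assoc, ← mul_assoc (κ 1 α), (uκ 1 h11 α).2, one_mul, hS]
        have hk := key_r1 hr (uΦ _ hσ _).1 (uΦ _ hσ _).2 hz (hp3 α)
        show cj (LL R T J (Real.pi / 2, θ, α, β)) (ww κ Φ (ϖ j) (Real.pi / 2, θ, α, β)) =
          cj (LL R T J (Real.pi / 2, θ, 0, β - G α)) (ww κ Φ (ϖ j) (Real.pi / 2, θ, 0, β - G α))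
        rw [LL_r1 h hJ, LL_r1' h, cj_comp]
        congr 1
        simp only [ww]
        rw [hs1, κx0 1 h11, one_mul, star_one, mul_one, ← hk]
        simp only [star_mul, mul_assoc]
      · intro r α β h0 h1
        obtain ⟨hp1, hp2, hp3, hp4⟩ := hϖ j
        have e1 : LL R T J (r, 0, α, β) = LL R T J (r, 0, α, 0) := by
          simp only [LL]
          rw [h.T0, h.T0, (h.t0 r α β).2]
        have e2 : ww κ Φ (ϖ j) (r, 0, α, β) = ww κ Φ (ϖ j) (r, 0, α, 0) := by
          simp only [ww, zero_div, sub_zero]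
          rw [hp4 β]
        simp only [e1, e2]
      · intro r α β h0 h1
        have hpi := Real.pi_pos
        have hs : 2 * r / Real.pi ∈ Icc (0 : ℝ) 1 := by
          constructor
          · positivity
          · rw [div_le_one hpi]; linarith
        have hσ0 : 1 - Real.pi / Real.pi = 0 := by rw [div_self hpi.ne', sub_self]
        have huΨ : ∀ b, star (lΨ J T b) * lΨ J T b = 1 ∧ lΨ J T b * star (lΨ J T b) = 1 :=
          fun b => Unitary.mem_iff.1 (compr_unitary hJ (isoS h hJ) (interΨ h b) (h.uT _))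
        have e : ∀ b, cj (LL R T J (r, Real.pi, α, b)) (ww κ Φ (ϖ j) (r, Real.pi, α, b)) =
            cj ((R (r, Real.pi, α, 0)).comp ((T (0, Real.pi, 0, 0)).comp J))
              (κ (2 * r / Real.pi) α * ϖ j * star (κ (2 * r / Real.pi) α)) := by
          intro b
          rw [LL_t1 h hJ, cj_comp]
          congr 1
          simp only [ww]
          rw [hσ0, Φ0]
          exact key_t1 (hcomm _ hs α b) (huΨ b).2 (huΨ b).1
        exact (e β).trans (e 0).symm
  · intro j x hx
    obtain ⟨hp1, hp2, -, -⟩ := hϖ j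
    have k1 := uκ _ (box_s hx) x.2.2.1
    have k2 := uΦ _ (box_σ hx) x.2.2.2
    refine ⟨?_, ?_, ?_⟩
    · simp only
      rw [cj_mul (hL x), ww_mul k1.1 k2.2, hp1]
    · simp only
      rw [star_cj, star_ww, hp2]
    · simp only
      rw [tr_cj (hL x), tr_ww k1.1 k2.2]
      exact hϖt j
  · intro i j hij x hx
    have k1 := uκ _ (box_s hx) x.2.2.1
    have k2 := uΦ _ (box_σ hx) x.2.2.2
    simp only
    rw [cj_mul (hL x), ww_mul k1.1 k2.2, hϖ0 i j hij, ww_zero, cj_zero]
  · intro x hx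
    have k1 := uκ _ (box_s hx) x.2.2.1
    have k2 := uΦ _ (box_σ hx) x.2.2.2
    simp only
    rw [cj_sum, ww_sum, hϖ1, ww_one k1.2 k2.1, cj_one]
    exact (isoL h hJ x).right

end Pool.Agent.Helper80.QL
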