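import Pool.Agent.Helper61.QL.Goals
import Pool.Agent.Helper25.QS.STD

/-!
# Project QL (MP_0ebdb3_gt), packet STL
-/

set_option autoImplicit false

open Set ComplexConjugate NormedSpace

namespace Pool.Agent.Helper80.QL

open Pool.Agent.Helper61 Pool.Agent.Helper61.QG Pool.Agent.Helper61.QT Pool.Agent.Helper61.QL
open Pool.Agent.Helper61.QS (V En tr rk W X TX act R4 IsCurv)
open Pool.Agent.Helper61.QM (Model Mm)
open Pool.Agent.Helper25.QS (contDiff_fφ deriv_fφ)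

theorem contDiff_AL {K : W → (ℂ × ℝ) →L[ℝ] (ℂ × ℝ) →L[ℝ] ℝ} (hK : ContDiff ℝ 3 K) :
    ContDiff ℝ 1 (AL K) := by
  have hs : ContDiff ℝ 3 (fun θ : ℝ =>
      ((((1 : ℂ), (0 : ℂ)), ((Real.sin θ : ℂ), Real.cos θ)) : W)) :=
    contDiff_const.prodMk
      ((Complex.ofRealCLM.contDiff.comp Real.contDiff_sin).prodMk Real.contDiff_cos)
  have hc : ContDiff ℝ 3 (fun θ : ℝ => ((Real.cos θ : ℂ), -Real.sin θ)) :=
    (Complex.ofRealCLM.contDiff.comp Real.contDiff_cos).prodMk Real.contDiff_sin.neg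
  have h1 : ContDiff ℝ 3 (fun θ : ℝ => K (((1 : ℂ), (0 : ℂ)), ((Real.sin θ : ℂ), Real.cos θ))) :=
    hK.comp hs
  have h2 := (h1.clm_apply hc).clm_apply hc
  exact h2.of_le (by norm_num)

theorem goalSTL (hLAM : G_LAM) (hSRL : G_SRL) (hSR2 : QS.G_SR2) : G_STL := by
  intro m gM hB hKK
  obtain ⟨φ, H, K, μ, D⟩ := hKK
  obtain ⟨Λ, hΛ, hr⟩ := hLAM μ D.smμ
  refine ⟨Λ, hΛ, ?_⟩
  intro hpos x hx
  obtain ⟨hA, hcurv⟩ := hSRL m gM φ H K μ Λ hB D hΛ hr
  have hφ := D.smφ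
  have hφp := D.posφ
  have hf : ContDiff ℝ 3 (QS.fφ φ) := contDiff_fφ hφ
  have hineq : ∀ t ∈ Ioo (0 : ℝ) Real.pi, deriv (deriv (QS.fφ φ)) t ≤
      deriv (AL K) t / (2 * AL K t) * deriv (QS.fφ φ) t := by
    intro t ht
    have hreg : ((Real.pi / 4, t, 0, 0) : R4) ∈ QS.Reg := by
      refine ⟨?_, ?_, ?_⟩
      · change Real.sin (Real.pi / 4) ≠ 0
        rw [Real.sin_pi_div_four]
        positivity
      · change Real.cos (Real.pi / 4) ≠ 0
        rw [Real.cos_pi_div_four]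
        positivity
      · change Real.sin t ≠ 0
        exact (Real.sin_pos_of_pos_of_lt_pi ht.1 ht.2).ne'
    obtain ⟨Hrr, hHrr, hc⟩ := hcurv _ hreg
    have h0 := hpos _ hreg _ hc
    change 0 ≤ Hrr * QS.fφ φ t * (deriv (AL K) t / (2 * AL K t) * deriv (QS.fφ φ) t -
      deriv (deriv (QS.fφ φ)) t) at h0
    have hfp : 0 < QS.fφ φ t := hφp _
    have h1 : 0 < Hrr * QS.fφ φ t := mul_pos hHrr hfp
    have h2 := nonneg_of_mul_nonneg_right h0 h1
    linarith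
  have hz : ∀ t ∈ Icc (0 : ℝ) Real.pi, deriv (QS.fφ φ) t = 0 :=
    hSR2 (QS.fφ φ) (AL K) (hf.of_le (by norm_num)) (contDiff_AL D.smK) (fun t _ => hA t)
      (by rw [deriv_fφ hφ, Real.sin_zero]; ring) (by rw [deriv_fφ hφ, Real.sin_pi]; ring) hineq
  have hall : ∀ t : ℝ, deriv (QS.fφ φ) t = 0 := by
    intro t
    have h1 := hz (Real.arccos (Real.cos t)) ⟨Real.arccos_nonneg _, Real.arccos_le_pi _⟩
    rw [deriv_fφ hφ, Real.cos_arccos (Real.neg_one_le_cos t) (Real.cos_le_one t),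
      Real.sin_arccos] at h1
    rw [deriv_fφ hφ]
    rcases mul_eq_zero.mp (neg_eq_zero.mp h1) with h2 | h2
    · have h3 : 1 - Real.cos t ^ 2 = 0 :=
        (Real.sqrt_eq_zero (by nlinarith [Real.sin_sq_add_cos_sq t, sq_nonneg (Real.sin t)])).mp h2
      have h4 : Real.sin t = 0 := by
        have := Real.sin_sq_add_cos_sq t
        have h5 : Real.sin t ^ 2 = 0 := by linarith
        exact pow_eq_zero_iff (two_ne_zero) |>.mp h5
      rw [h4]
      ring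
    · rw [h2]
      ring
  have hdd : ∀ t : ℝ, deriv (deriv (QS.fφ φ)) t = 0 := by
    intro t
    have : deriv (QS.fφ φ) = fun _ => 0 := funext hall
    rw [this]
    simp
  obtain ⟨Hrr, _, hc⟩ := hcurv x hx
  rw [hall, hdd] at hc
  simpa using hc

end Pool.Agent.Helper80.QL
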